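import Pool.Agent.Y208.LQ.Stm

set_option autoImplicit false

/-!
The relations of the first kind give a homomorphism from the Lie algebra (job LQ-LHOM).
-/

namespace Y899.LQ

open Pool.SF Y208.LQ

attribute [local instance 100] LieRing.ofAssociativeRing

section span

variable {F L : Type} [Field F] [LieRing L] [LieAlgebra F L] {n : ℕ} {a : Fin n → L}
  {Bs : Set (FreeMagma (Fin n))} {nf : FreeMagma (Fin n) → ℕ × List (ℤ × FreeMagma (Fin n))}
  {f : ℕ → ℕ × List (ℤ × ℕ)}

/-- every Lie monomial is in the span of the monomials of `Bs` -/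
theorem lev_mem (h : LRB F a Bs nf f) (w : FreeMagma (Fin n)) :
    lev a w ∈ Submodule.span F (Set.range (fun w : Bs => lev a w.1)) := by
  have h2 : ((nf w).1 : F) • lev a w ∈
      Submodule.span F (Set.range (fun w : Bs => lev a w.1)) := by
    rw [h.h1 w]
    apply list_sum_mem
    intro x hx
    obtain ⟨p, hp, rfl⟩ := List.mem_map.mp hx
    apply Submodule.smul_mem
    exact Submodule.subset_span ⟨⟨p.2, h.hB w p hp⟩, rfl⟩
  have h3 := Submodule.smul_mem _ (((nf w).1 : F))⁻¹ h2
  rwa [smul_smul, inv_mul_cancel₀ (h.hd w), one_smul] at h3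

/-- the span of the monomials of `Bs` is closed under brackets -/
theorem bracket_mem (h : LRB F a Bs nf f) (x y : L)
    (hx : x ∈ Submodule.span F (Set.range (fun w : Bs => lev a w.1)))
    (hy : y ∈ Submodule.span F (Set.range (fun w : Bs => lev a w.1))) :
    ⁅x, y⁆ ∈ Submodule.span F (Set.range (fun w : Bs => lev a w.1)) := by
  induction hx using Submodule.span_induction with
  | mem x hx =>
    obtain ⟨w, rfl⟩ := hx
    induction hy using Submodule.span_induction with
    | mem y hy =>
      obtain ⟨w', rfl⟩ := hy
      exact lev_mem h (FreeMagma.mul w.1 w'.1)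
    | zero => rw [lie_zero]; exact Submodule.zero_mem _
    | add y z _ _ hy hz => rw [lie_add]; exact Submodule.add_mem _ hy hz
    | smul c y _ hy => rw [lie_smul]; exact Submodule.smul_mem _ _ hy
  | zero => rw [zero_lie]; exact Submodule.zero_mem _
  | add x z _ _ hx hz => rw [add_lie]; exact Submodule.add_mem _ hx hz
  | smul c x _ hx => rw [smul_lie]; exact Submodule.smul_mem _ _ hx

/-- the monomials of `Bs` span -/
theorem span_top (h : LRB F a Bs nf f) :
    ⊤ ≤ Submodule.span F (Set.range (fun w : Bs => lev a w.1)) := by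
  let S : LieSubalgebra F L :=
    { Submodule.span F (Set.range (fun w : Bs => lev a w.1)) with
      lie_mem' := fun {x y} hx hy => bracket_mem h x y hx hy }
  have h1 : LieSubalgebra.lieSpan F L (Set.range a) ≤ S := by
    rw [LieSubalgebra.lieSpan_le]
    rintro _ ⟨i, rfl⟩
    exact lev_mem h (FreeMagma.of i)
  intro x _
  rw [h.gen] at h1
  exact h1 (LieSubalgebra.mem_top x)

end span

theorem t_LHOM : S_LHOM := by
  intro F L _ _ _ n a Bs nf f h A' _ _ c hc
  let b : Module.Basis Bs F L := Module.Basis.mk h.li (span_top h)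
  let θ : L →ₗ[F] A' := b.constr F (fun w => lev c w.1)
  have h1 : ∀ w : Bs, θ (lev a w.1) = lev c w.1 := by
    intro w
    have : b w = lev a w.1 := Module.Basis.mk_apply _ _ w
    rw [← this]
    exact Module.Basis.constr_basis b F _ w
  have h2 : ∀ w, θ (lev a w) = lev c w := by
    intro w
    have h3 := congrArg θ (h.h1 w)
    rw [map_smul, map_list_sum, List.map_map] at h3
    have h4 : ((nf w).2.map (⇑θ ∘ fun p => (p.1 : F) • lev a p.2)) =
        (nf w).2.map (fun p => (p.1 : F) • lev c p.2) := by
      apply List.map_congr_left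
      intro p hp
      show θ ((p.1 : F) • lev a p.2) = _
      rw [map_smul, h1 ⟨p.2, h.hB w p hp⟩]
    rw [h4, ← hc w] at h3
    have h5 := congrArg (fun z => (((nf w).1 : F))⁻¹ • z) h3
    simpa only [smul_smul, inv_mul_cancel₀ (h.hd w), one_smul] using h5
  have h6 : ∀ x y, θ ⁅x, y⁆ = ⁅θ x, θ y⁆ := by
    intro x y
    have hx : x ∈ Submodule.span F (Set.range (fun w : Bs => lev a w.1)) :=
      span_top h Submodule.mem_top
    have hy : y ∈ Submodule.span F (Set.range (fun w : Bs => lev a w.1)) :=
      span_top h Submodule.mem_top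
    induction hx using Submodule.span_induction with
    | mem x hx =>
      obtain ⟨w, rfl⟩ := hx
      induction hy using Submodule.span_induction with
      | mem y hy =>
        obtain ⟨w', rfl⟩ := hy
        show θ ⁅lev a w.1, lev a w'.1⁆ = ⁅θ (lev a w.1), θ (lev a w'.1)⁆
        rw [h2, h2]
        exact h2 (FreeMagma.mul w.1 w'.1)
      | zero => simp
      | add y z _ _ hy hz => rw [lie_add, map_add, map_add, lie_add, hy, hz]
      | smul c y _ hy =>
        rw [lie_smul, map_smul, map_smul, hy, LieRing.of_associative_ring_bracket,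
          LieRing.of_associative_ring_bracket, mul_smul_comm, smul_mul_assoc, smul_sub]
    | zero => simp
    | add x z _ _ hx hz => rw [add_lie, map_add, map_add, add_lie, hx, hz]
    | smul c x _ hx =>
      rw [smul_lie, map_smul, map_smul, hx, LieRing.of_associative_ring_bracket,
        LieRing.of_associative_ring_bracket, mul_smul_comm, smul_mul_assoc, smul_sub]
  refine ⟨{ θ with map_lie' := fun {x y} => h6 x y }, fun i => ?_⟩
  exact h2 (FreeMagma.of i)

end Y899.LQ
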