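import Pool.Agent.Y208.LQ.Stm

set_option autoImplicit false

/-!
What the relators mean (job LQ-LREL).
-/

namespace Y899.LQ

open Pool.SF Y208.LQ

attribute [local instance 100] LieRing.ofAssociativeRing

section val

variable {A : Type} [Ring A]

theorem ev_nil {G : Type} (c : G → A) : ev c ([] : List (Bool × List G)) = 0 := by
  simp [ev]

theorem ev_cons {G : Type} (c : G → A) (x : Bool × List G) (l : List (Bool × List G)) :
    ev c (x :: l) = (if x.1 then (1 : A) else -1) * (x.2.map c).prod + ev c l := by
  unfold ev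
  rw [List.map_cons, List.sum_cons]

theorem ev_app {G : Type} (c : G → A) (l1 l2 : List (Bool × List G)) :
    ev c (l1 ++ l2) = ev c l1 + ev c l2 := by
  unfold ev
  rw [List.map_append, List.sum_append]

theorem ev_rep {G : Type} (c : G → A) (k : ℕ) (e : List (Bool × List G)) :
    ev c ((List.replicate k e).flatten) = (k : A) * ev c e := by
  induction k with
  | zero => simp [ev]
  | succ k ih =>
    rw [List.replicate_succ, List.flatten_cons, ev_app, ih]
    push_cast
    rw [add_mul, one_mul, add_comm]

theorem ev_fneg {n : ℕ} (c : Fin n → A) (p : FS n) : ev c (fneg p) = - ev c p := by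
  induction p with
  | nil => simp [fneg, ev]
  | cons x p ih =>
    have : fneg (x :: p) = (!x.1, x.2) :: fneg p := rfl
    rw [this, ev_cons, ev_cons, ih]
    cases x.1
    · simp [add_comm]
    · simp [add_comm]

theorem ev_fmul {n : ℕ} (c : Fin n → A) (p q : FS n) :
    ev c (fmul p q) = ev c p * ev c q := by
  have h1 : ∀ (x : Bool × List (Fin n)) (q : FS n),
      ev c (q.map (fun y => (x.1 == y.1, x.2 ++ y.2))) =
        (if x.1 then (1 : A) else -1) * (x.2.map c).prod * ev c q := by
    intro x q
    induction q with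
    | nil => simp [ev]
    | cons y q ih =>
      rw [List.map_cons, ev_cons, ih, ev_cons, mul_add]
      congr 1
      rw [List.map_append, List.prod_append]
      cases x.1 <;> cases y.1 <;> simp
  induction p with
  | nil => simp [fmul, ev]
  | cons x p ih =>
    have : fmul (x :: p) q = q.map (fun y => (x.1 == y.1, x.2 ++ y.2)) ++ fmul p q := by
      simp [fmul]
    rw [this, ev_app, ih, h1, ev_cons, add_mul]

theorem ev_map_inl {n : ℕ} (c : GD n → A) (p : FS n) :
    ev c (p.map (fun x => (x.1, x.2.map (Sum.inl : Fin n → GD n)))) =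
      ev (fun i => c (.inl i)) p := by
  induction p with
  | nil => simp [ev]
  | cons x p ih =>
    rw [List.map_cons, ev_cons, ev_cons, ih]
    congr 2
    simp only [List.map_map]
    rfl

end val

/-! ### The expansion of a monomial -/

theorem EC_of (n : ℕ) (i : Fin n) : EC n (code (FreeMagma.of i)) = [(true, [i])] := by
  rw [EC]
  have h1 : code (FreeMagma.of i) = 2 * (i : ℕ) := rfl
  have h2 : (2 * (i : ℕ)) / 2 = i := by omega
  rw [h1, dif_pos (by omega), dif_pos (by rw [h2]; exact i.2)]
  congr 3
  ext
  exact h2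

theorem EC_mul (n : ℕ) (x y : FreeMagma (Fin n)) :
    EC n (code (FreeMagma.mul x y)) =
      fmul (EC n (code x)) (EC n (code y)) ++ fneg (fmul (EC n (code y)) (EC n (code x))) := by
  rw [EC]
  have h1 : code (FreeMagma.mul x y) = 2 * Nat.pair (code x) (code y) + 1 := rfl
  have h2 : (2 * Nat.pair (code x) (code y) + 1) / 2 = Nat.pair (code x) (code y) := by omega
  rw [h1, dif_neg (by omega), h2, Nat.unpair_pair]

theorem fmul_eq_nil {n : ℕ} (p q : FS n) (h : fmul p q = []) : p = [] ∨ q = [] := by
  cases p with
  | nil => left; rfl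
  | cons x p =>
    cases q with
    | nil => right; rfl
    | cons y q => simp [fmul] at h

theorem fmul_nil {n : ℕ} (p : FS n) : fmul p [] = [] := by
  simp [fmul]

theorem nil_fmul {n : ℕ} (p : FS n) : fmul [] p = [] := by
  simp [fmul]

theorem EC_code_ne (n : ℕ) (w : FreeMagma (Fin n)) : EC n (code w) ≠ [] := by
  induction w with
  | ih1 i => 
    have := EC_of n i
    intro h
    rw [this] at h
    exact absurd h (by simp)
  | ih2 x y hx hy =>
    intro h
    have h2 := EC_mul n x y
    have h3 : EC n (code (x * y)) = EC n (code (FreeMagma.mul x y)) := rfl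
    rw [h3, h2, List.append_eq_nil_iff] at h
    rcases fmul_eq_nil _ _ h.1 with h | h
    · exact hx h
    · exact hy h

theorem EC_ne_code (n : ℕ) (k : ℕ) (h : EC n k ≠ []) : ∃ w : FreeMagma (Fin n), code w = k := by
  induction k using Nat.strong_induction_on with
  | _ k ih =>
    rw [EC] at h
    by_cases hk : k % 2 = 0
    · rw [dif_pos hk] at h
      by_cases h2 : k / 2 < n
      · refine ⟨FreeMagma.of ⟨k / 2, h2⟩, ?_⟩
        show 2 * (k / 2) = k
        omega
      · rw [dif_neg h2] at h
        exact absurd rfl h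
    · rw [dif_neg hk] at h
      have h1 := Nat.unpair_left_le (k / 2)
      have h2 := Nat.unpair_right_le (k / 2)
      have h3 : EC n (Nat.unpair (k / 2)).1 ≠ [] := by
        intro h4
        rw [h4, fmul_nil, nil_fmul] at h
        exact h rfl
      have h4 : EC n (Nat.unpair (k / 2)).2 ≠ [] := by
        intro h4
        rw [h4, fmul_nil, nil_fmul] at h
        exact h rfl
      obtain ⟨x, hx⟩ := ih _ (by omega) h3
      obtain ⟨y, hy⟩ := ih _ (by omega) h4
      refine ⟨FreeMagma.mul x y, ?_⟩
      show 2 * Nat.pair (code x) (code y) + 1 = k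
      rw [hx, hy, Nat.pair_unpair]
      omega

section val2

variable {A : Type} [Ring A]

theorem ev_EC {n : ℕ} (c : Fin n → A) (w : FreeMagma (Fin n)) :
    ev c (EC n (code w)) = lev c w := by
  induction w with
  | ih1 i =>
    have := EC_of n i
    rw [this, ev_cons, ev_nil]
    simp [lev]
  | ih2 x y hx hy =>
    have h2 := EC_mul n x y
    have h3 : EC n (code (x * y)) = EC n (code (FreeMagma.mul x y)) := rfl
    rw [h3, h2, ev_app, ev_fneg, ev_fmul, ev_fmul, hx, hy]
    show _ = ⁅lev c x, lev c y⁆
    rw [LieRing.of_associative_ring_bracket, sub_eq_add_neg]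

theorem ev_ECL {n : ℕ} (c : Fin n → A) (ws : List (FreeMagma (Fin n))) :
    ev c (ECL n (ws.map code)) = (ws.map (lev c)).prod := by
  induction ws with
  | nil =>
    show ev c [(true, [])] = _
    rw [ev_cons, ev_nil]
    simp
  | cons w ws ih =>
    have : ECL n ((w :: ws).map code) = fmul (EC n (code w)) (ECL n (ws.map code)) := rfl
    rw [this, ev_fmul, ih, ev_EC, List.map_cons, List.prod_cons]

theorem ev_rel1L {n : ℕ} (c : GD n → A) (e : FS n) (p : ℕ × List (ℤ × FS n)) :
    ev c (rel1L e p) = (p.1 : A) * ev (fun i => c (.inl i)) e -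
      (p.2.map (fun q => (q.1 : A) * ev (fun i => c (.inl i)) q.2)).sum := by
  unfold rel1L
  rw [ev_map_inl, ev_app, ev_rep, sub_eq_add_neg]
  congr 1
  induction p.2 with
  | nil => simp [ev]
  | cons q l ih =>
    rw [List.flatMap_cons, ev_app, ih, ev_rep, List.map_cons, List.sum_cons, neg_add]
    congr 1
    by_cases hz : q.1 < 0
    · rw [if_pos hz]
      have h1 : ((q.1.natAbs : ℤ)) = -q.1 := by omega
      have h2 : ((q.1.natAbs : ℕ) : A) = -(q.1 : A) := by
        have := congrArg (Int.cast : ℤ → A) h1
        rw [Int.cast_neg] at this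
        rw [← this]
        simp
      rw [h2, neg_mul]
    · rw [if_neg hz, ev_fneg]
      have h1 : ((q.1.natAbs : ℤ)) = q.1 := by omega
      have h2 : ((q.1.natAbs : ℕ) : A) = (q.1 : A) := by
        have := congrArg (Int.cast : ℤ → A) h1
        rw [← this]
        simp
      rw [h2, mul_neg]

theorem ev_rel3L {n : ℕ} (c : GD n → A) (e : FS n) (k m : ℕ) :
    ev c (rel3L e k m) = c (.inr 1) * ev (fun i => c (.inl i)) e * c (.inr 0) ^ m *
      c (.inr 2) - (if sqc k m then 1 else 0) := by
  unfold rel3L
  rw [ev_app, sub_eq_add_neg]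
  congr 1
  · induction e with
    | nil => simp [ev]
    | cons x e ih =>
      rw [List.map_cons, ev_cons, ih, ev_cons]
      have h1 : ((.inr 1 :: (x.2.map .inl ++ (List.replicate m (.inr 0) ++ [.inr 2])) :
          List (GD n)).map c).prod = c (.inr 1) * (x.2.map (fun i => c (.inl i))).prod *
            c (.inr 0) ^ m * c (.inr 2) := by
        simp only [List.map_cons, List.map_nil, List.map_append,
          List.map_map, List.map_replicate, List.prod_cons, List.prod_append, List.prod_replicate,
          List.prod_nil, mul_one]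
        simp only [mul_assoc]
        rfl
      simp only
      rw [h1]
      have h2 : ∀ z : A, (if x.1 = true then (1 : A) else -1) * z =
          if x.1 = true then z else -z := by
        intro z
        split_ifs <;> simp
      rw [h2, h2]
      split_ifs
      · simp only [mul_add, add_mul]
      · simp only [mul_add, add_mul, mul_neg, neg_mul]
  · split_ifs
    · rw [ev_cons, ev_nil]
      simp
    · rw [ev_nil, neg_zero]

end val2

theorem t_LREL : S_LREL := by
  classical
  intro F _ n Bs nf f hf A' _ _ c
  have hdec : ∀ i, relL n (fun k => ∃ w ∈ Bs, code w = k) f i =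
      match (Encodable.decode i : Option (ℕ ⊕ (Fin n ⊕ (List ℕ × ℕ)))) with
      | none => []
      | some (.inl k) => if EC n k = [] then [] else
          rel1L (EC n k) ((f k).1, (f k).2.map (fun p => (p.1, EC n p.2)))
      | some (.inr (.inl k)) => rel2 k
      | some (.inr (.inr p)) => if (∀ c ∈ p.1, ∃ w ∈ Bs, code w = c) ∧ p.1.Pairwise (· ≤ ·) then
          rel3L (ECL n p.1) (Encodable.encode p.1) p.2 else [] := by
    intro i
    unfold relL
    rcases (Encodable.decode i : Option (ℕ ⊕ (Fin n ⊕ (List ℕ × ℕ)))) with _ | (k | (k | p))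
    · rfl
    · by_cases hk : EC n k = []
      · show (if _ then _ else _) = (if _ then _ else _)
        rw [if_pos hk]
      · show (if _ then _ else _) = (if _ then _ else _)
        rw [if_neg hk]
    · rfl
    · by_cases hp : (∀ c ∈ p.1, ∃ w ∈ Bs, code w = c) ∧ p.1.Pairwise (· ≤ ·)
      · show (if _ then _ else _) = (if _ then _ else _)
        rw [if_pos hp]
      · show (if _ then _ else _) = (if _ then _ else _)
        rw [if_neg hp]
  have h1 : ∀ w, ev c (if EC n (code w) = [] then [] else
          rel1L (EC n (code w)) ((f (code w)).1, (f (code w)).2.map (fun p => (p.1, EC n p.2)))) = 0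
      ↔ ((nf w).1 : F) • lev (fun i => c (.inl i)) w =
        ((nf w).2.map (fun p => (p.1 : F) • lev (fun i => c (.inl i)) p.2)).sum := by
    intro w
    rw [if_neg (EC_code_ne n w), ev_rel1L, sub_eq_zero, hf w, Algebra.smul_def, map_natCast,
      ev_EC]
    simp only [List.map_map]
    have : ((fun q : ℤ × FS n => (q.1 : A') * ev (fun i => c (.inl i)) q.2) ∘
        (fun p : ℤ × ℕ => (p.1, EC n p.2)) ∘
        (fun p : ℤ × FreeMagma (Fin n) => (p.1, code p.2))) =
        fun p : ℤ × FreeMagma (Fin n) => (p.1 : F) • lev (fun i => c (.inl i)) p.2 := by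
      funext p
      show (p.1 : A') * ev (fun i => c (.inl i)) (EC n (code p.2)) = _
      rw [ev_EC, Algebra.smul_def, map_intCast]
    rw [this]
  have h2 : ∀ i, ev c (rel2 i) = 0 ↔ Commute (c (.inl i)) (c (.inr 0)) := by
    intro i
    simp only [ev, rel2, List.map_cons, List.map_nil, List.sum_cons, List.sum_nil, List.prod_cons,
      List.prod_nil, mul_one, if_true, one_mul, Bool.false_eq_true, if_false, add_zero]
    rw [neg_one_mul, ← sub_eq_add_neg, sub_eq_zero]
    rfl
  have h3 : ∀ (ws : List (FreeMagma (Fin n))) (m : ℕ),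
      ev c (rel3L (ECL n (ws.map code)) (Encodable.encode (ws.map code)) m) = 0 ↔
      c (.inr 1) * (ws.map (lev (fun i => c (.inl i)))).prod * c (.inr 0) ^ m *
        c (.inr 2) = if sqc (Encodable.encode (ws.map code)) m then 1 else 0 := by
    intro ws m
    rw [ev_rel3L, sub_eq_zero, ev_ECL]
  have hlist : ∀ cs : List ℕ, (∀ k ∈ cs, ∃ w ∈ Bs, code w = k) →
      ∃ ws : List (FreeMagma (Fin n)), (∀ w ∈ ws, w ∈ Bs) ∧ ws.map code = cs := by
    intro cs
    induction cs with
    | nil => intro _; exact ⟨[], by simp, rfl⟩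
    | cons k cs ih =>
      intro h
      obtain ⟨w, hw, hwk⟩ := h k (by simp)
      obtain ⟨ws, hws, hwc⟩ := ih (fun k' hk' => h k' (by simp [hk']))
      refine ⟨w :: ws, ?_, ?_⟩
      · intro w' hw'
        rcases List.mem_cons.mp hw' with rfl | h'
        · exact hw
        · exact hws w' h'
      · rw [List.map_cons, hwk, hwc]
  constructor
  · intro h
    refine ⟨fun w => (h1 w).1 ?_, fun i => (h2 i).1 ?_, fun ws hws hp m => (h3 ws m).1 ?_⟩
    · have := h (Encodable.encode (Sum.inl (code w) : ℕ ⊕ (Fin n ⊕ (List ℕ × ℕ))))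
      rw [hdec, Encodable.encodek] at this
      exact this
    · have := h (Encodable.encode (Sum.inr (Sum.inl i) : ℕ ⊕ (Fin n ⊕ (List ℕ × ℕ))))
      rw [hdec, Encodable.encodek] at this
      exact this
    · have := h (Encodable.encode (Sum.inr (Sum.inr (ws.map code, m)) :
        ℕ ⊕ (Fin n ⊕ (List ℕ × ℕ))))
      rw [hdec, Encodable.encodek] at this
      simp only at this
      rw [if_pos] at this
      · exact this
      · refine ⟨?_, hp⟩
        intro k hk
        obtain ⟨w, hw, rfl⟩ := List.mem_map.mp hk
        exact ⟨w, hws w hw, rfl⟩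
  · rintro ⟨g1, g2, g3⟩ i
    rw [hdec]
    split
    · exact ev_nil c
    · rename_i k _
      by_cases hk : EC n k = []
      · rw [if_pos hk, ev_nil]
      · obtain ⟨w, rfl⟩ := EC_ne_code n k hk
        exact (h1 w).2 (g1 w)
    · exact (h2 _).2 (g2 _)
    · rename_i p _
      by_cases hp : (∀ c ∈ p.1, ∃ w ∈ Bs, code w = c) ∧ p.1.Pairwise (· ≤ ·)
      · rw [if_pos hp]
        obtain ⟨ws, hws, hwc⟩ := hlist p.1 hp.1
        rw [← hwc]
        exact (h3 ws p.2).2 (g3 ws hws (by rw [hwc]; exact hp.2) p.2)
      · rw [if_neg hp, ev_nil]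

end Y899.LQ
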